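import Pool.Agent.Lib.MP_28303a_al.NT.Lab
import Pool.Agent.Lib.MP_28303a_al.NT.Kar
import Pool.Agent.Lib.MP_28303a_al.NK.H50.Ext
import Pool.Agent.Lib.MP_28303a_al.NK.H78.Lreg

/-! # Row IND: step (C) and the descending induction -/

set_option autoImplicit false
set_option linter.unusedSectionVars false
set_option linter.unusedVariables false

namespace Pool.Agent.NegK.NT.H15

universe u

open CategoryTheory Limits

/-! ### Commutations -/

section

open Loc

variable {k k' : Type u} [Ring k] [Ring k'] {Γ : Type u} [Group Γ]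
  {B B' B'' : Type u} [MulAction Γ B] [MulAction Γ B'] [MulAction Γ B'']
  {P : Pre Γ B} {Q : Pre Γ B'} {R : Pre Γ B''}

/-- Composition of monotone maps. -/
def mcomp (m : Mono P Q) (m' : Mono Q R) : Mono P R where
  φ x := m'.φ (m.φ x)
  smul g b := by rw [m.smul, m'.smul]
  le h := m'.le (m.le h)

/-- `push` and composition. -/
noncomputable def pushComp (m : Mono P Q) (m' : Mono Q R) :
    push (k := k) m ⋙ push m' ≅ push (mcomp m m') := Iso.refl _

/-- `push` and the change of rings. -/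
noncomputable def pushBc (m : Mono P Q) (φ : k →+* k') :
    push (k := k) m ⋙ bc φ ≅ bc φ ⋙ push m :=
  NatIso.ofComponents (fun A => Iso.refl _) (by
    intro A A' f
    refine ext_basis (A := bo (tr m A)) (A' := bo (tr m A')) fun i => ?_
    simp only [Iso.refl_hom, Category.comp_id, Category.id_comp]
    change lin (A := bo (tr m A)) (A' := bo (tr m A')) (bm φ ((push m).map f)) _ =
      lin (A := bo A) (A' := bo A') (bm φ f) _
    rw [bm, bm, lin_ofB (A := bo A) (A' := bo A')]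
    exact lin_ofB (A := bo (tr m A)) (A' := bo (tr m A')) _ _ i)

/-- Functors on homotopy categories: composition. -/
noncomputable def hkComp {k₁ k₂ k₃ : Type u} [Ring k₁] [Ring k₂] [Ring k₃] {F : Loc k₁ P ⥤ Loc k₂ Q}
    {G : Loc k₂ Q ⥤ Loc k₃ R} {H : Loc k₁ P ⥤ Loc k₃ R} [F.Additive] [G.Additive] [H.Additive]
    (e : F ⋙ G ≅ H) : hk F ⋙ hk G ≅ hk H :=
  Functor.mapHomotopyCategoryCompIso e _

/-- Functors on homotopy categories: squares. -/
noncomputable def hkSq {k₁ k₂ k₃ k₄ : Type u} [Ring k₁] [Ring k₂] [Ring k₃] [Ring k₄]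
    {B₃ : Type u} [MulAction Γ B₃] {V : Pre Γ B₃}
    {F : Loc k₁ P ⥤ Loc k₂ Q} {G : Loc k₂ Q ⥤ Loc k₃ R}
    {F' : Loc k₁ P ⥤ Loc k₄ V} {G' : Loc k₄ V ⥤ Loc k₃ R}
    [F.Additive] [G.Additive] [F'.Additive] [G'.Additive]
    (e : F ⋙ G ≅ F' ⋙ G') : hk F ⋙ hk G ≅ hk F' ⋙ hk G' :=
  hkComp (H := F' ⋙ G') e ≪≫ (hkComp (H := F' ⋙ G') (Iso.refl (F' ⋙ G'))).symm

/-! ### Finite complexes -/

theorem finC_push (m : Mono P Q) {E : CochainComplex (Loc k P) ℤ} (hE : FinC E) :
    FinC (((push (k := k) m).mapHomologicalComplex (ComplexShape.up ℤ)).obj E) :=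
  ⟨fun n => hE.fin n, hE.bdd⟩

theorem per_push (m : Mono P Q) {X : KK k P} (hX : Per X) :
    Per ((hk (push (k := k) m)).obj X) := by
  obtain ⟨E, hE, ⟨r⟩⟩ := hX
  exact ⟨_, finC_push m hE, ⟨r.map (hk (push m))⟩⟩

end

/-! ### The classes `P_S^J` -/

section

variable {Γ : Type u} [Group Γ] {T : Sys Γ}

/-- Composition of forgetful functors. -/
noncomputable def LL (k : Type u) [Ring k] {S S' S'' : Finset (Fin T.m)} (h : S' ⊆ S)
    (h' : S'' ⊆ S') : T.L k h ⋙ T.L k h' ≅ T.L k (h'.trans h) :=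
  hkComp (pushComp (T.fg h) (T.fg h'))

/-- Forgetful functors and changes of rings. -/
noncomputable def Lbc {k k' : Type u} [Ring k] [Ring k'] (φ : k →+* k')
    {S S' : Finset (Fin T.m)} (h : S' ⊆ S) :
    T.L k h ⋙ hk (Loc.bc φ) ≅ hk (Loc.bc φ) ⋙ T.L k' h :=
  hkSq (pushBc (T.fg h) φ)

/-- Forgetting nothing. -/
noncomputable def Lid (k : Type u) [Ring k] (S : Finset (Fin T.m)) (h : S ⊆ S) :
    T.L k h ≅ 𝟭 (KK k (T.P S)) :=
  NatIso.ofComponents (fun Y => Iso.refl _) (by
    rintro Y Z f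
    obtain ⟨f, rfl⟩ := (HomotopyCategory.quotient _ _).map_surjective f
    simp only [Iso.refl_hom]
    rfl)

/-- Acyclicity passes to smaller sets of locations. -/
theorem ac_L {S S' : Finset (Fin T.m)} {k : Type u} [Ring k] (h : S' ⊆ S) (j : Fin T.m)
    {X : KK k (T.P S)} (hX : IsZero ((T.L k (S.erase_subset j)).obj X)) :
    IsZero ((T.L k (S'.erase_subset j)).obj ((T.L k h).obj X)) := by
  have h1 : S'.erase j ⊆ S.erase j := Finset.erase_subset_erase j h
  have e : (T.L k (S'.erase_subset j)).obj ((T.L k h).obj X) ≅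
      (T.L k h1).obj ((T.L k (S.erase_subset j)).obj X) :=
    (LL k h (S'.erase_subset j)).app X ≪≫ ((LL k (S.erase_subset j) h1).app X).symm
  exact ((T.L k h1).map_isZero hX).of_iso e

theorem pj_L {S S' J : Finset (Fin T.m)} {k : Type u} [Ring k] {X : KK k (T.P S)}
    (hX : T.PJ S J k X) (h : S' ⊆ S) : T.PJ S' J k ((T.L k h).obj X) :=
  ⟨per_push _ hX.per, fun j hj => ac_L h j (hX.ac j hj)⟩

/-- Step (C). -/
theorem ext_of_lift {S J : Finset (Fin T.m)} {i : Fin T.m} (hL : T.LIFT S J i)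
    (hE : T.EXT (insert i S) J) : T.EXT S J := by
  intro k _ hk X hX
  obtain ⟨D, hD, ⟨e⟩⟩ := hL (LaurentPolynomial k) (H78.lreg H50.ext k hk) X hX
  obtain ⟨Y, hY, ⟨f⟩⟩ := hE k hk D hD
  have h1 : (loc k (T.P S)).obj ((T.L (Polynomial k) (Finset.subset_insert i S)).obj Y) ≅
      (T.L (LaurentPolynomial k) (Finset.subset_insert i S)).obj
        ((loc k (T.P (insert i S))).obj Y) :=
    (Lbc (T := T) (Polynomial.toLaurent (R := k)) (Finset.subset_insert i S)).app Y
  have h2 : (T.L (LaurentPolynomial k) (Finset.subset_insert i S)).obj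
        ((loc k (T.P (insert i S))).obj Y) ≅
      (T.L (LaurentPolynomial k) (Finset.subset_insert i S)).obj D :=
    (T.L (LaurentPolynomial k) (Finset.subset_insert i S)).mapIso f
  exact ⟨(T.L (Polynomial k) (Finset.subset_insert i S)).obj Y, pj_L hY _,
    ⟨h1 ≪≫ h2 ≪≫ e⟩⟩

/-- The descending induction. -/
theorem ext_all (hB : T.STEPB) (hA : T.BASE) :
    ∀ (n : ℕ) (S J : Finset (Fin T.m)), Sᶜ.card = n → J ⊆ S → T.EXT S J := by
  intro n
  induction n with
  | zero =>
    intro S J hS hJ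
    have h1 : S = Finset.univ := by
      rw [Finset.card_eq_zero] at hS
      rw [← compl_compl S, hS, Finset.compl_empty]
    subst h1
    exact hA J
  | succ n ih =>
    intro S J hS hJ
    obtain ⟨i, hi⟩ : Sᶜ.Nonempty := by
      rw [← Finset.card_pos, hS]
      exact Nat.succ_pos n
    have hi' : i ∉ S := Finset.mem_compl.1 hi
    have h2 : (insert i S)ᶜ.card = n := by
      rw [Finset.compl_insert, Finset.card_erase_of_mem hi, hS]
      rfl
    have h3 := ih (insert i S) (insert i J) h2 (Finset.insert_subset_insert i hJ)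
    have h4 := ih (insert i S) J h2 (hJ.trans (Finset.subset_insert i S))
    exact ext_of_lift (hB S J i hJ hi' h3) h4

/-- All lifts. -/
theorem lift_all (hB : T.STEPB) (hA : T.BASE)
    (S J : Finset (Fin T.m)) (i : Fin T.m) (hJ : J ⊆ S) (hi : i ∉ S) : T.LIFT S J i :=
  hB S J i hJ hi (ext_all hB hA _ _ _ rfl (Finset.insert_subset_insert i hJ))

/-- Every perfect object without locations comes from a perfect object with locations. -/
theorem lift_univ (hB : T.STEPB) (hA : T.BASE)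
    (k : Type u) [Ring k] (hk : RegularRing k) (S : Finset (Fin T.m)) :
    ∀ X : KK k (T.P ∅), Per X →
      ∃ D : KK k (T.P S), Per D ∧ Nonempty ((T.L k (Finset.empty_subset S)).obj D ≅ X) := by
  induction S using Finset.induction_on with
  | empty =>
    intro X hX
    exact ⟨X, hX, ⟨(Lid k ∅ _).app X⟩⟩
  | insert i S hi ih =>
    intro X hX
    obtain ⟨D, hD, ⟨e⟩⟩ := ih X hX
    obtain ⟨D', hD', ⟨e'⟩⟩ := lift_all hB hA S ∅ i (Finset.empty_subset _)
      hi k hk D ⟨hD, fun j hj => absurd hj (Finset.notMem_empty j)⟩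
    refine ⟨D', hD'.per, ⟨?_⟩⟩
    exact ((LL k (Finset.subset_insert i S) (Finset.empty_subset S)).app D').symm ≪≫
      (T.L k (Finset.empty_subset S)).mapIso e' ≪≫ e

variable (T)

/-- Row IND. -/
theorem ind (hB : T.STEPB) (hbase : T.BASE) :
    (∀ S J : Finset (Fin T.m), J ⊆ S → T.EXT S J) ∧
    ∀ (k : Type u) [Ring k], RegularRing k → ∀ X : KK k (T.P ∅), Per X →
      ∃ D : KK k (T.P Finset.univ), Per D ∧
        Nonempty ((T.L k (Finset.empty_subset _)).obj D ≅ X) :=
  ⟨fun S J hJ => ext_all hB hbase _ S J rfl hJ,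
    fun k _ hk X hX => lift_univ hB hbase k hk Finset.univ X hX⟩

/-- The lifts for `KGEN`. -/
theorem lifts (hB : T.STEPB) (hbase : T.BASE) (k : Type u) [Ring k] (hk : RegularRing k) :
    T.LIFTS k := (ind T hB hbase).2 k hk

end

end Pool.Agent.NegK.NT.H15
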